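import Pool.Agent.R688.QI.Nak
import Pool.Agent.R688.QI.Elem

open CategoryTheory Abelian Pointwise

universe u

namespace R688.QI

variable {R : Type u} [CommRing R]

variable (I : ChainComplex (ModuleCat.{u} R) ℤ) (b : ℤ)

/-- the pieces of the cut complex -/
def cutSub (j : ℤ) : Submodule R (I.X j) where
  carrier := {x | (j ≤ b → x = 0) ∧ (j = b + 1 → (I.d j b).hom x = 0)}
  add_mem' := by
    rintro x y ⟨h1, h2⟩ ⟨h3, h4⟩
    exact ⟨fun h => by rw [h1 h, h3 h, add_zero], fun h => by rw [map_add, h2 h, h4 h, add_zero]⟩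
  zero_mem' := ⟨fun _ => rfl, fun _ => map_zero _⟩
  smul_mem' := by
    rintro r x ⟨h1, h2⟩
    exact ⟨fun h => by rw [h1 h, smul_zero], fun h => by rw [map_smul, h2 h, smul_zero]⟩

lemma dd (i j k : ℤ) (x : I.X i) : (I.d j k).hom ((I.d i j).hom x) = 0 := by
  have := I.d_comp_d i j k
  exact congrArg (fun q => q.hom x) this

lemma cut_d (i j : ℤ) (x : I.X i) (hx : x ∈ cutSub I b i) : (I.d i j).hom x ∈ cutSub I b j := by
  constructor
  · intro h
    by_cases hij : (ComplexShape.down ℤ).Rel i j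
    · have hij' : j + 1 = i := hij
      rcases eq_or_lt_of_le h with h' | h'
      · subst h'
        exact hx.2 hij'.symm
      · rw [hx.1 (by omega), map_zero]
    · rw [I.shape _ _ hij]; rfl
  · intro _
    exact dd I _ _ _ x

/-- the cut complex -/
noncomputable def cut : ChainComplex (ModuleCat.{u} R) ℤ where
  X j := ModuleCat.of R (cutSub I b j)
  d i j := ModuleCat.ofHom ((I.d i j).hom.restrict (cut_d I b i j))
  shape i j h := by
    ext x
    change (I.d i j).hom x.1 = 0
    rw [I.shape i j h]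
    rfl
  d_comp_d' i j k _ _ := by
    ext x
    exact dd I i j k x.1

/-- the inclusion -/
noncomputable def cutι : cut I b ⟶ I where
  f i := ModuleCat.ofHom (cutSub I b i).subtype
  comm' i j _ := by
    ext x
    rfl

/-- induced map on `Hom(C, -)` -/
noncomputable def cutHom (C : Type u) [AddCommGroup C] [Module R C] :
    homC C (cut I b) ⟶ homC C I where
  f i := ModuleCat.ofHom (LinearMap.compRight R (cutSub I b i).subtype)
  comm' i j _ := by
    ext x
    rfl

variable {I b}

lemma cut_le {j : ℤ} (h : j ≤ b) : Subsingleton ((cut I b).X j) := by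
  refine ⟨fun x y => ?_⟩
  apply Subtype.ext
  exact (x.2.1 h).trans (y.2.1 h).symm

lemma mem_cut_gt {j : ℤ} (h : b + 1 < j) (x : I.X j) : x ∈ cutSub I b j :=
  ⟨fun h' => by omega, fun h' => by omega⟩

lemma cut_injective_gt (hI : ∀ i, Module.Injective R (I.X i)) {j : ℤ} (h : b + 1 < j) :
    Module.Injective R ((cut I b).X j) := by
  refine ⟨fun X Y _ _ _ _ f hf g => ?_⟩
  obtain ⟨k, hk⟩ := (hI j).out f hf ((cutSub I b j).subtype ∘ₗ g)
  exact ⟨k.codRestrict (cutSub I b j) (fun y => mem_cut_gt h _), fun x => Subtype.ext (hk x)⟩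

lemma cut_injective_le {j : ℤ} (h : j ≤ b) :
    Module.Injective R ((cut I b).X j) := by
  have := cut_le (I := I) h
  refine ⟨fun X Y _ _ _ _ f hf g => ⟨0, fun x => Subsingleton.elim _ _⟩⟩

/-- vanishing of `E_b(L)` means that maps `L → I_b` lift to `I_{b+1}`. -/
lemma lift_of_E_zero (hb : Subsingleton (I.X (b - 1))) (L : Type u) [AddCommGroup L] [Module R L]
    (h : Subsingleton (E I L b)) (g : L →ₗ[R] I.X b) :
    ∃ f : L →ₗ[R] I.X (b + 1), (I.d (b + 1) b).hom ∘ₗ f = g := by
  have hrel : (ComplexShape.down ℤ).Rel b (b - 1) := by simp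
  have hrel' : (ComplexShape.down ℤ).Rel (b + 1) b := by simp
  obtain ⟨z, hz⟩ := El.exists_cycle (homC L I) hrel g (by
    refine LinearMap.ext fun x => ?_
    exact Subsingleton.elim (α := I.X (b - 1)) _ _)
  obtain ⟨v, hv⟩ := El.pi_eq_zero (homC L I) hrel' z (Subsingleton.elim (α := E I L b) _ _)
  refine ⟨v, ?_⟩
  have h1 := El.i_toCycles (homC L I) (b + 1) b v
  rw [hv, hz] at h1
  exact h1.symm

/-- the kernel `Z` of `I_{b+1} → I_b` is injective if `E_b(R/𝔞) = 0` for all ideals -/
lemma cut_injective_eq (hI : ∀ i, Module.Injective R (I.X i)) (hb : Subsingleton (I.X (b - 1)))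
    (h : ∀ 𝔞 : Ideal R, Subsingleton (E I (R ⧸ 𝔞) b)) :
    Module.Injective R ((cut I b).X (b + 1)) := by
  apply Module.Baer.injective
  intro 𝔞 g
  -- extend to `R → I_{b+1}`
  obtain ⟨k, hk⟩ := (hI (b + 1)).out (𝔞.subtype) Subtype.val_injective
    ((cutSub I b (b + 1)).subtype ∘ₗ g)
  have hker : 𝔞 ≤ LinearMap.ker ((I.d (b + 1) b).hom ∘ₗ k) := by
    intro a ha
    rw [LinearMap.mem_ker, LinearMap.comp_apply]
    have h1 := hk ⟨a, ha⟩
    have h2 : k a = (g ⟨a, ha⟩).1 := h1
    rw [h2]
    exact (g ⟨a, ha⟩).2.2 rfl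
  obtain ⟨f, hf⟩ := lift_of_E_zero hb (R ⧸ 𝔞) (h 𝔞)
    (Submodule.liftQ 𝔞 ((I.d (b + 1) b).hom ∘ₗ k) hker)
  let k' : R →ₗ[R] I.X (b + 1) := k - f ∘ₗ Submodule.mkQ 𝔞
  have hk' : ∀ r, k' r ∈ cutSub I b (b + 1) := by
    intro r
    refine ⟨fun h' => by omega, fun _ => ?_⟩
    have h1 := LinearMap.congr_fun hf (Submodule.Quotient.mk r)
    simp only [LinearMap.comp_apply, Submodule.liftQ_apply] at h1
    simp only [k', LinearMap.sub_apply, LinearMap.comp_apply, Submodule.mkQ_apply, map_sub]
    rw [h1, sub_self]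
  refine ⟨k'.codRestrict _ hk', ?_⟩
  intro a ha
  apply Subtype.ext
  change k' a = (g ⟨a, ha⟩).1
  have h1 : k a = (g ⟨a, ha⟩).1 := hk ⟨a, ha⟩
  have h2 : (Submodule.mkQ 𝔞) a = 0 := by
    rw [Submodule.mkQ_apply]
    exact (Submodule.Quotient.mk_eq_zero 𝔞).2 ha
  simp only [k', LinearMap.sub_apply, LinearMap.comp_apply]
  rw [h2, map_zero, sub_zero, h1]

/-- the map on `Hom(C, -)` is a quasi-isomorphism -/
lemma cut_quasiIso (hb : Subsingleton (I.X (b - 1))) (C : Type u) [AddCommGroup C] [Module R C]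
    (hlt : ∀ j, j < b → Subsingleton (I.X j))
    (hC : Subsingleton (E I C b)) (n : ℤ) : QuasiIsoAt (cutHom I b C) n := by
  have hl : (ComplexShape.down ℤ).Rel (n + 1) n := by simp
  have hm : (ComplexShape.down ℤ).Rel n (n - 1) := by simp
  rw [El.quasiIsoAt_iff _ hl hm]
  constructor
  · rintro x hx ⟨u, hu⟩
    by_cases hn : n ≤ b
    · have : Subsingleton ((homC C (cut I b)).X n) := by
        have := cut_le (I := I) hn
        change Subsingleton (C →ₗ[R] (cut I b).X n)
        infer_instance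
      exact ⟨0, Subsingleton.elim _ _⟩
    · push Not at hn
      let u' : C →ₗ[R] I.X (n + 1) := u
      have hmem : ∀ y : C, u' y ∈ cutSub I b (n + 1) := fun y =>
        mem_cut_gt (by omega) _
      refine ⟨(LinearMap.codRestrict (cutSub I b (n + 1)) u' hmem :
        C →ₗ[R] cutSub I b (n + 1)), ?_⟩
      refine LinearMap.ext fun y => ?_
      apply Subtype.ext
      exact LinearMap.congr_fun hu y
  · intro y hy
    by_cases hn : n ≤ b
    · refine ⟨0, map_zero _, ?_⟩
      rcases eq_or_lt_of_le hn with rfl | hn'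
      · obtain ⟨f, hf⟩ := lift_of_E_zero hb C hC (y : C →ₗ[R] I.X n)
        refine ⟨f, ?_⟩
        rw [map_zero, zero_add]
        exact hf.symm
      · have := hlt n hn'
        have hs : Subsingleton ((homC C I).X n) := by
          change Subsingleton (C →ₗ[R] I.X n)
          infer_instance
        exact ⟨0, Subsingleton.elim _ _⟩
    · push Not at hn
      let y' : C →ₗ[R] I.X n := y
      have hmem : ∀ z : C, y' z ∈ cutSub I b n := by
        intro z
        refine ⟨fun h' => by omega, fun h' => ?_⟩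
        have h1 : (I.d n (n - 1)).hom (y' z) = 0 := LinearMap.congr_fun hy z
        have h2 : n - 1 = b := by omega
        rw [h2] at h1
        exact h1
      refine ⟨(LinearMap.codRestrict (cutSub I b n) y' hmem :
        C →ₗ[R] cutSub I b n), ?_, 0, ?_⟩
      · refine LinearMap.ext fun z => ?_
        apply Subtype.ext
        exact LinearMap.congr_fun hy z
      · rw [map_zero, add_zero]
        rfl

end R688.QI
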