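import Mathlib

/-!
# C-quasi-injective dimension

Definitions for the problem MP_a1000c_al: semidualizing modules, the complex `Hom_R(L, I)`,
C-quasi-injective resolutions, C-quasi-injective dimension and depth.
-/

open CategoryTheory

universe u

namespace R688.QI

variable (R : Type u) [CommRing R]

/-- A finitely generated module `C` is semidualizing if the homothety map `R → Hom_R(C, C)` is
bijective and `Ext^i_R(C, C) = 0` for all `i > 0`. -/
structure IsSemidualizing (C : Type u) [AddCommGroup C] [Module R C] : Prop where
  finite : Module.Finite R C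
  homothety : Function.Bijective (LinearMap.lsmul R C : R →ₗ[R] (C →ₗ[R] C))
  ext_vanish : ∀ i : ℕ, 0 < i →
    Subsingleton (Abelian.Ext (ModuleCat.of R C) (ModuleCat.of R C) i)

variable {R} in
/-- The complex `Hom_R(L, I)`, in homological indexing: `Hom_R(L, I)_i = Hom_R(L, I_i)` and the
differential is composition with the differential of `I`. -/
noncomputable def homC (L : Type u) [AddCommGroup L] [Module R L]
    (I : ChainComplex (ModuleCat.{u} R) ℤ) : ChainComplex (ModuleCat.{u} R) ℤ where
  X i := ModuleCat.of R (L →ₗ[R] I.X i)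
  d i j := ModuleCat.ofHom (LinearMap.compRight R (I.d i j).hom)
  shape i j h := by
    ext f x
    simp [I.shape i j h]
  d_comp_d' i j k _ _ := by
    ext f x
    change (I.d j k).hom ((I.d i j).hom (f x)) = 0
    rw [← LinearMap.comp_apply, ← ModuleCat.hom_comp, I.d_comp_d]
    rfl

variable {R} in
/-- `inf X = inf {i : X_i ≠ 0}`. -/
noncomputable def infX (X : ChainComplex (ModuleCat.{u} R) ℤ) : ℤ :=
  sInf {i : ℤ | ¬ Subsingleton (X.X i)}

variable {R} in
/-- `hinf X = inf {i : H_i(X) ≠ 0}`. -/
noncomputable def hinfX (X : ChainComplex (ModuleCat.{u} R) ℤ) : ℤ :=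
  sInf {i : ℤ | ¬ Subsingleton (X.homology i)}

/-- `I` is a `C`-quasi-injective resolution of `M`: a bounded complex of injective modules such
that `Hom_R(C, I)` is not acyclic and every homology module of `Hom_R(C, I)` is isomorphic to a
finite direct sum of copies of `M`. -/
structure IsQIRes (C M : Type u) [AddCommGroup C] [Module R C] [AddCommGroup M] [Module R M]
    (I : ChainComplex (ModuleCat.{u} R) ℤ) : Prop where
  bounded : {i : ℤ | ¬ Subsingleton (I.X i)}.Finite
  injective : ∀ i : ℤ, Module.Injective R (I.X i)
  not_acyclic : ∃ i : ℤ, ¬ Subsingleton ((homC C I).homology i)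
  homology : ∀ i : ℤ, ∃ a : ℕ, Nonempty ((homC C I).homology i ≃ₗ[R] (Fin a → M))

/-- The `C`-quasi-injective dimension of `M`: the infimum of
`hinf Hom_R(C, I) - inf Hom_R(C, I)` over all `C`-quasi-injective resolutions `I` of `M`
(and `⊤` if there is none). -/
noncomputable def qid (C M : Type u) [AddCommGroup C] [Module R C] [AddCommGroup M]
    [Module R M] : ℕ∞ :=
  ⨅ (I : ChainComplex (ModuleCat.{u} R) ℤ) (_ : IsQIRes R C M I),
    ((hinfX (homC C I) - infX (homC C I)).toNat : ℕ∞)

/-- The depth of the ring `R`: the supremum of the lengths of `R`-regular sequences. -/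
noncomputable def depthR : ℕ∞ :=
  ⨆ (rs : List R) (_ : RingTheory.Sequence.IsRegular R rs), (rs.length : ℕ∞)

end R688.QI
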