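import Pool.Agent.R688.QI.Defs

open CategoryTheory

universe u

namespace R688.QI

variable {R : Type u} [CommRing R]

section map

variable {L L' L'' : Type u} [AddCommGroup L] [Module R L] [AddCommGroup L'] [Module R L']
  [AddCommGroup L''] [Module R L'']
variable (I : ChainComplex (ModuleCat.{u} R) ℤ)

/-- functoriality of `Hom(L, I)` in `L` -/
noncomputable def homCmap (f : L →ₗ[R] L') : homC L' I ⟶ homC L I where
  f i := ModuleCat.ofHom (LinearMap.lcomp R (I.X i) f)
  comm' i j _ := by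
    ext g
    rfl

lemma homCmap_comp (f : L →ₗ[R] L') (g : L' →ₗ[R] L'') :
    homCmap I (g ∘ₗ f) = homCmap I g ≫ homCmap I f := by
  ext i x
  rfl

lemma homCmap_id : homCmap I (LinearMap.id : L →ₗ[R] L) = 𝟙 _ := by
  ext i x
  rfl

lemma homCmap_zero : homCmap I (0 : L →ₗ[R] L') = 0 := by
  ext i x
  change (x : L' →ₗ[R] I.X i) ∘ₗ (0 : L →ₗ[R] L') = 0
  simp

lemma homCmap_add (f g : L →ₗ[R] L') : homCmap I (f + g) = homCmap I f + homCmap I g := by
  ext i x
  change (x : L' →ₗ[R] I.X i) ∘ₗ (f + g) = (x : L' →ₗ[R] I.X i) ∘ₗ f + (x : L' →ₗ[R] I.X i) ∘ₗ g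
  exact LinearMap.comp_add _ _ _

lemma homCmap_smul (r : R) (f : L →ₗ[R] L') : homCmap I (r • f) = r • homCmap I f := by
  ext i x
  change (x : L' →ₗ[R] I.X i) ∘ₗ (r • f) = r • ((x : L' →ₗ[R] I.X i) ∘ₗ f)
  exact LinearMap.comp_smul _ _ _

/-- `E_i(L) = H_i(Hom(L, I))` -/
noncomputable abbrev E (L : Type u) [AddCommGroup L] [Module R L] (i : ℤ) : ModuleCat.{u} R :=
  (homC L I).homology i

/-- functoriality of `E_i` -/
noncomputable def Emap (f : L →ₗ[R] L') (i : ℤ) : E I L' i →ₗ[R] E I L i :=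
  (HomologicalComplex.homologyMap (homCmap I f) i).hom

lemma Emap_comp (f : L →ₗ[R] L') (g : L' →ₗ[R] L'') (i : ℤ) :
    Emap I (g ∘ₗ f) i = Emap I f i ∘ₗ Emap I g i := by
  unfold Emap
  rw [homCmap_comp, HomologicalComplex.homologyMap_comp]
  rfl

lemma Emap_id (i : ℤ) : Emap I (LinearMap.id : L →ₗ[R] L) i = LinearMap.id := by
  unfold Emap
  rw [homCmap_id, HomologicalComplex.homologyMap_id]
  rfl

lemma Emap_zero (i : ℤ) : Emap I (0 : L →ₗ[R] L') i = 0 := by
  unfold Emap
  rw [homCmap_zero, HomologicalComplex.homologyMap_zero]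
  rfl

lemma Emap_add (f g : L →ₗ[R] L') (i : ℤ) : Emap I (f + g) i = Emap I f i + Emap I g i := by
  unfold Emap
  rw [homCmap_add, HomologicalComplex.homologyMap_add]
  rfl

lemma Emap_smul (r : R) (f : L →ₗ[R] L') (i : ℤ) : Emap I (r • f) i = r • Emap I f i := by
  unfold Emap
  rw [homCmap_smul]
  have h : (HomologicalComplex.shortComplexFunctor (ModuleCat.{u} R) (ComplexShape.down ℤ) i).map
      (r • homCmap I f) =
      r • (HomologicalComplex.shortComplexFunctor (ModuleCat.{u} R) (ComplexShape.down ℤ) i).map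
        (homCmap I f) := by
    ext <;> rfl
  have : HomologicalComplex.homologyMap (r • homCmap I f) i
      = r • HomologicalComplex.homologyMap (homCmap I f) i := by
    change ShortComplex.homologyMap
      ((HomologicalComplex.shortComplexFunctor (ModuleCat.{u} R) (ComplexShape.down ℤ) i).map
        (r • homCmap I f)) = r • ShortComplex.homologyMap
      ((HomologicalComplex.shortComplexFunctor (ModuleCat.{u} R) (ComplexShape.down ℤ) i).map
        (homCmap I f))
    rw [h]
    exact ShortComplex.homologyMap_smul _ _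
  rw [this]
  rfl

/-- the equivalence induced by an equivalence -/
noncomputable def Eequiv (e : L ≃ₗ[R] L') (i : ℤ) : E I L' i ≃ₗ[R] E I L i :=
  LinearEquiv.ofLinearMap (Emap I (e : L →ₗ[R] L') i) (Emap I (e.symm : L' →ₗ[R] L) i)
    (by rw [← Emap_comp]; simp [Emap_id]) (by rw [← Emap_comp]; simp [Emap_id])

/-- the short complex of complexes associated with a short exact sequence -/
noncomputable def sc (f : L' →ₗ[R] L) (g : L →ₗ[R] L'') (hfg : Function.Exact f g) :
    ShortComplex (ChainComplex (ModuleCat.{u} R) ℤ) :=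
  ShortComplex.mk (homCmap I g) (homCmap I f) (by
    rw [← homCmap_comp]
    have : g ∘ₗ f = 0 := hfg.linearMap_comp_eq_zero
    rw [this, homCmap_zero])

variable {I}

lemma sc_shortExact (hI : ∀ i, Module.Injective R (I.X i)) {f : L' →ₗ[R] L} {g : L →ₗ[R] L''}
    (hf : Function.Injective f) (hg : Function.Surjective g) (hfg : Function.Exact f g) :
    (sc I f g hfg).ShortExact := by
  apply HomologicalComplex.shortExact_of_degreewise_shortExact
  intro i
  refine ModuleCat.shortComplex_shortExact _ ?_ ?_ ?_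
  · intro x
    constructor
    · intro hx
      -- x : L → I_i with x ∘ f = 0
      have hx' : (x : L →ₗ[R] I.X i) ∘ₗ f = 0 := hx
      have hker : LinearMap.ker g ≤ LinearMap.ker (x : L →ₗ[R] I.X i) := by
        intro y hy
        rw [LinearMap.mem_ker] at hy ⊢
        obtain ⟨z, rfl⟩ := (hfg y).1 hy
        exact LinearMap.congr_fun hx' z
      let e := g.quotKerEquivOfSurjective hg
      refine ⟨((LinearMap.ker g).liftQ (x : L →ₗ[R] I.X i) hker) ∘ₗ (e.symm : L'' →ₗ[R] _), ?_⟩
      change (((LinearMap.ker g).liftQ (x : L →ₗ[R] I.X i) hker) ∘ₗ (e.symm : L'' →ₗ[R] _)) ∘ₗ g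
        = (x : L →ₗ[R] I.X i)
      refine LinearMap.ext fun y => ?_
      have : e.symm (g y) = Submodule.Quotient.mk y := by
        rw [LinearEquiv.symm_apply_eq]
        rfl
      simp [this]
    · rintro ⟨y, rfl⟩
      change (y ∘ₗ g) ∘ₗ f = (0 : L' →ₗ[R] I.X i)
      rw [LinearMap.comp_assoc, hfg.linearMap_comp_eq_zero, LinearMap.comp_zero]
  · intro x y hxy
    have hxy' : (x : L'' →ₗ[R] I.X i) ∘ₗ g = (y : L'' →ₗ[R] I.X i) ∘ₗ g := hxy
    change (x : L'' →ₗ[R] I.X i) = (y : L'' →ₗ[R] I.X i)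
    refine LinearMap.ext fun z => ?_
    obtain ⟨w, rfl⟩ := hg z
    exact LinearMap.congr_fun hxy' w
  · intro x
    obtain ⟨h, hh⟩ := (hI i).out f hf x
    exact ⟨h, LinearMap.ext hh⟩

/-- exactness at `E_i(L)` -/
lemma exact_mid (hI : ∀ i, Module.Injective R (I.X i)) {f : L' →ₗ[R] L} {g : L →ₗ[R] L''}
    (hf : Function.Injective f) (hg : Function.Surjective g) (hfg : Function.Exact f g) (i : ℤ) :
    Function.Exact (Emap I g i) (Emap I f i) := by
  have := (sc_shortExact hI hf hg hfg).homology_exact₂ i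
  rw [ShortComplex.ShortExact.moduleCat_exact_iff_function_exact] at this
  exact this

/-- connecting homomorphism -/
lemma exact_conn (hI : ∀ i, Module.Injective R (I.X i)) {f : L' →ₗ[R] L} {g : L →ₗ[R] L''}
    (hf : Function.Injective f) (hg : Function.Surjective g) (hfg : Function.Exact f g)
    (i j : ℤ) (hij : j + 1 = i) :
    ∃ δ : E I L' i →ₗ[R] E I L'' j, Function.Exact (Emap I f i) δ ∧
      Function.Exact δ (Emap I g j) := by
  have hS := sc_shortExact hI hf hg hfg
  have h3 := hS.homology_exact₃ i j hij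
  have h1 := hS.homology_exact₁ i j hij
  rw [ShortComplex.ShortExact.moduleCat_exact_iff_function_exact] at h3 h1
  exact ⟨(hS.δ i j hij).hom, h3, h1⟩

end map

end R688.QI
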