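import Pool.Agent.R688.QI.Cut

open CategoryTheory Abelian Pointwise

universe u

namespace R688.QI

variable {R : Type u} [CommRing R]

variable {I : ChainComplex (ModuleCat.{u} R) ℤ} {b : ℤ}

/-- if `E_b(k) = 0` then `E_b(L) = 0` for every finitely generated `L`. -/
theorem all_zero [IsLocalRing R] [IsNoetherianRing R] (hI : ∀ i, Module.Injective R (I.X i))
    (hb : Subsingleton (I.X (b - 1)))
    (hfin : ∀ (N : Type u) [AddCommGroup N] [Module R N] [Module.Finite R N] (i : ℤ),
      Module.Finite R (E I N i))
    (hk : Subsingleton (E I (R ⧸ IsLocalRing.maximalIdeal R) b))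
    (L : Type u) [AddCommGroup L] [Module R L] [hL : Module.Finite R L] :
    Subsingleton (E I L b) := by
  induction hL using IsNoetherianRing.induction_on_isQuotientEquivQuotientPrime R with
  | subsingleton N => exact E_zero_of_subsingleton N b
  | quotient N p e =>
    refine midClosed_subsingleton.equiv (Eequiv I e b) (A := E I (R ⧸ p.1) b) ?_
    by_cases hp : p.1 = IsLocalRing.maximalIdeal R
    · rw [hp]; exact hk
    · have hle : p.1 < IsLocalRing.maximalIdeal R :=
        lt_of_le_of_ne (IsLocalRing.le_maximalIdeal p.2.ne_top) hp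
      obtain ⟨x, hx, hxp⟩ := Set.exists_of_ssubset hle
      let f : (R ⧸ p.1) →ₗ[R] (R ⧸ p.1) := LinearMap.lsmul R (R ⧸ p.1) x
      have hf : Function.Injective f := by
        rw [injective_iff_map_eq_zero]
        intro y hy
        obtain ⟨r, rfl⟩ := Ideal.Quotient.mk_surjective y
        have h1 : Ideal.Quotient.mk p.1 (x * r) = 0 := hy
        rw [Ideal.Quotient.eq_zero_iff_mem] at h1
        rw [Ideal.Quotient.eq_zero_iff_mem]
        exact (p.2.mem_or_mem h1).resolve_left hxp
      let g : (R ⧸ p.1) →ₗ[R] ((R ⧸ p.1) ⧸ LinearMap.range f) := Submodule.mkQ _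
      have hfg : Function.Exact f g := by
        intro y
        simp [g, LinearMap.mem_range]
      obtain ⟨δ, h1, h2⟩ := exact_conn hI hf (Submodule.mkQ_surjective _) hfg b (b - 1) (by ring)
      have hz : Subsingleton (E I ((R ⧸ p.1) ⧸ LinearMap.range f) (b - 1)) := E_zero_of _ hb
      have := hfin (R ⧸ p.1) b
      refine subsingleton_of_smul_surj _ hx (fun y => ?_)
      obtain ⟨z, hz⟩ := (h1 y).1 (Subsingleton.elim _ _)
      refine ⟨z, ?_⟩
      rw [← hz]
      have hfe : f = x • LinearMap.id := by
        ext y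
        simp [f]
      rw [hfe, Emap_smul, Emap_id]
      rfl
  | exact N₁ N₂ N₃ f g hf hg hfg h1 h3 =>
    exact E_ext hI midClosed_subsingleton hf hg hfg b h1 h3

/-- the residue field embeds in a finitely generated module of depth zero -/
theorem k_embeds [IsLocalRing R] [IsNoetherianRing R] (N : Type u) [AddCommGroup N] [Module R N]
    [Module.Finite R N] (h : ∀ x ∈ IsLocalRing.maximalIdeal R, ¬ IsSMulRegular N x) :
    ∃ f : (R ⧸ IsLocalRing.maximalIdeal R) →ₗ[R] N, Function.Injective f := by
  have h1 : ¬ Subsingleton ((R ⧸ IsLocalRing.maximalIdeal R) →ₗ[R] N) := by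
    rw [IsSMulRegular.subsingleton_linearMap_iff]
    rintro ⟨r, hr, hreg⟩
    rw [Ideal.annihilator_quotient] at hr
    exact h r hr hreg
  rw [not_subsingleton_iff_nontrivial] at h1
  obtain ⟨f, hf⟩ := exists_ne (0 : (R ⧸ IsLocalRing.maximalIdeal R) →ₗ[R] N)
  refine ⟨f, ?_⟩
  rw [← LinearMap.ker_eq_bot]
  have hsimple : IsSimpleModule R (R ⧸ IsLocalRing.maximalIdeal R) := by
    rw [isSimpleModule_iff_isCoatom]
    exact Ideal.isMaximal_def.1 (IsLocalRing.maximalIdeal.isMaximal R)
  rcases eq_bot_or_eq_top (LinearMap.ker f) with h2 | h2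
  · exact h2
  · exact absurd (LinearMap.ker_eq_top.1 h2) hf

/-- `Hom(C, J) = 0` implies `J = 0` for `J` injective -/
lemma hom_zero_iff [IsLocalRing R] [IsNoetherianRing R] {C : Type u} [AddCommGroup C] [Module R C]
    (hsd : IsSemidualizing R C) (J : ModuleCat.{u} R) (hJ : Module.Injective R J) :
    Subsingleton (C →ₗ[R] J) ↔ Subsingleton J := by
  constructor
  · intro h
    have := hsd.finite
    -- `R ↪ C^n`
    obtain ⟨n, φ, hφ⟩ := Module.Finite.exists_fin' R C
    let f : R →ₗ[R] (Fin n → C) := LinearMap.pi (fun k => LinearMap.toSpanSingleton R C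
      (φ (Pi.single k 1)))
    have hf : Function.Injective f := by
      rw [injective_iff_map_eq_zero]
      intro r hr
      apply hsd.homothety.1
      rw [map_zero]
      refine LinearMap.ext fun c => ?_
      obtain ⟨x, rfl⟩ := hφ c
      rw [LinearMap.lsmul_apply, LinearMap.zero_apply]
      have h1 : (r • φ) = 0 := by
        refine LinearMap.pi_ext' fun k => LinearMap.ext_ring ?_
        have := congrFun hr k
        simpa [f] using this
      exact LinearMap.congr_fun h1 x
    refine ⟨fun x y => ?_⟩
    have hz : ∀ x : J, x = 0 := by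
      intro x
      obtain ⟨g, hg⟩ := hJ.out f hf (LinearMap.toSpanSingleton R J x)
      have hg0 : g = 0 := by
        refine LinearMap.pi_ext' fun k => ?_
        exact Subsingleton.elim _ _
      have := hg 1
      rw [hg0] at this
      simpa using this.symm
    rw [hz x, hz y]
  · intro h
    infer_instance

variable {C M : Type u} [AddCommGroup C] [Module R C] [AddCommGroup M] [Module R M]

lemma infset_eq [IsLocalRing R] [IsNoetherianRing R] (hsd : IsSemidualizing R C)
    (hI : ∀ i, Module.Injective R (I.X i)) :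
    {i : ℤ | ¬ Subsingleton ((homC C I).X i)} = {i : ℤ | ¬ Subsingleton (I.X i)} := by
  ext i
  exact not_congr (hom_zero_iff hsd (I.X i) (hI i))

/-- basic facts about the two infima -/
lemma hinf_spec (hres : IsQIRes R C M I) :
    ¬ Subsingleton (E I C (hinfX (homC C I))) ∧
      ∀ i, i < hinfX (homC C I) → Subsingleton (E I C i) := by
  have hne : {i : ℤ | ¬ Subsingleton ((homC C I).homology i)}.Nonempty := hres.not_acyclic
  have hfin : {i : ℤ | ¬ Subsingleton ((homC C I).homology i)}.Finite := by
    refine hres.bounded.subset ?_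
    intro i hi hs
    exact hi (E_zero_of C hs)
  have hbdd := hfin.bddBelow
  refine ⟨Int.csInf_mem hne hbdd, fun i hi => ?_⟩
  by_contra hcon
  have := csInf_le hbdd (show i ∈ {i : ℤ | ¬ Subsingleton ((homC C I).homology i)} from hcon)
  unfold hinfX at hi
  omega

lemma inf_spec [IsLocalRing R] [IsNoetherianRing R] (hsd : IsSemidualizing R C)
    (hres : IsQIRes R C M I) :
    (¬ Subsingleton (I.X (infX (homC C I)))) ∧
      (∀ i, i < infX (homC C I) → Subsingleton (I.X i)) ∧
      (∀ i, ¬ Subsingleton (I.X i) → infX (homC C I) ≤ i) := by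
  have hne : {i : ℤ | ¬ Subsingleton (I.X i)}.Nonempty := by
    obtain ⟨i, hi⟩ := hres.not_acyclic
    exact ⟨i, fun hs => hi (E_zero_of C hs)⟩
  have hbdd := hres.bounded.bddBelow
  have heq : infX (homC C I) = sInf {i : ℤ | ¬ Subsingleton (I.X i)} := by
    unfold infX
    rw [infset_eq hsd hres.injective]
  rw [heq]
  refine ⟨Int.csInf_mem hne hbdd, fun i hi => ?_, fun i hi => csInf_le hbdd hi⟩
  by_contra hcon
  have := csInf_le hbdd (show i ∈ {i : ℤ | ¬ Subsingleton (I.X i)} from hcon)
  omega

/-- finiteness of all `E_i(L)` -/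
lemma fin_all [IsLocalRing R] [IsNoetherianRing R] (hsd : IsSemidualizing R C) [Module.Finite R M]
    (hres : IsQIRes R C M I) (N : Type u) [AddCommGroup N] [Module R N] [Module.Finite R N]
    (i : ℤ) : Module.Finite R (E I N i) := by
  have hCfin : ∀ j, Module.Finite R (E I C j) := by
    intro j
    obtain ⟨a, ⟨e⟩⟩ := hres.homology j
    exact Module.Finite.equiv e.symm
  obtain ⟨t, ht⟩ := hres.bounded.bddAbove
  have ht' : ∀ j, t + 1 ≤ j → Subsingleton (I.X j) := by
    intro j hj
    by_contra hcon
    have := ht hcon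
    omega
  have hR : ∀ j, Module.Finite R (E I R j) := fun j =>
    transferR hres.injective midClosed_finite (infX (homC C I)) (j + 1)
      (inf_spec hsd hres).2.1 (fun k _ => hCfin k) hsd j (by omega)
  exact E_all hres.injective midClosed_finite (t + 1) ht' hR (t + 1 - i).toNat i (by omega) N

/-- `E_i(R) = 0` for `i < h` and `E_h(R) ≠ 0` -/
lemma R_spec [IsLocalRing R] [IsNoetherianRing R] (hsd : IsSemidualizing R C) [Module.Finite R M]
    (hres : IsQIRes R C M I) :
    (∀ i, i < hinfX (homC C I) → Subsingleton (E I R i)) ∧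
      ¬ Subsingleton (E I R (hinfX (homC C I))) := by
  have h1 := hinf_spec hres
  have hCfin : ∀ j, Module.Finite R (E I C j) := by
    intro j
    obtain ⟨a, ⟨e⟩⟩ := hres.homology j
    exact Module.Finite.equiv e.symm
  exact ⟨fun i hi => transferR hres.injective midClosed_subsingleton (infX (homC C I)) _
    (inf_spec hsd hres).2.1 h1.2 hsd i hi,
    E_h_ne hres.injective (infX (homC C I)) _ (inf_spec hsd hres).2.1 h1.2 (hCfin _) h1.1 hsd⟩

lemma mem_max_of_regular [IsLocalRing R] {rs : List R} (h : RingTheory.Sequence.IsRegular R rs) :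
    ∀ x ∈ rs, x ∈ IsLocalRing.maximalIdeal R := by
  intro x hx
  have h1 : Ideal.ofList rs ≠ ⊤ := by
    intro hcon
    apply h.top_ne_smul
    rw [hcon]
    simp
  exact IsLocalRing.le_maximalIdeal h1 (Ideal.subset_span (by simpa using hx))

/-- lower bound -/
lemma lower [IsLocalRing R] [IsNoetherianRing R] (hsd : IsSemidualizing R C) [Module.Finite R M]
    (hres : IsQIRes R C M I) {rs : List R} (hrs : RingTheory.Sequence.IsRegular R rs) :
    infX (homC C I) + rs.length ≤ hinfX (homC C I) := by
  obtain ⟨h1, h2⟩ := R_spec hsd hres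
  have h3 := reg_seq hres.injective (fun N _ _ _ i => fin_all hsd hres N i) rs R
    hrs.toIsWeaklyRegular (mem_max_of_regular hrs) _ h1 h2
  have h4 := (inf_spec hsd hres).2.2 (hinfX (homC C I) - rs.length) (fun hs =>
    h3.2 (E_zero_of _ hs))
  omega

/-- cutting a resolution -/
lemma cut_res [IsLocalRing R] [IsNoetherianRing R] (hsd : IsSemidualizing R C)
    [Module.Finite R M] (hres : IsQIRes R C M I) {rs : List R}
    (hrs : RingTheory.Sequence.IsRegular R rs)
    (hmax : ∀ x : R, ¬ RingTheory.Sequence.IsRegular R (rs ++ [x]))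
    (hb : ∀ i, i < b → Subsingleton (I.X i)) (hlt : b + rs.length < hinfX (homC C I)) :
    IsQIRes R C M (cut I b) ∧ hinfX (homC C (cut I b)) = hinfX (homC C I) ∧
      (∀ i, i < b + 1 → Subsingleton ((cut I b).X i)) := by
  have hI := hres.injective
  have := hsd.finite
  obtain ⟨h1, h2⟩ := R_spec hsd hres
  have h3 := reg_seq hI (fun N _ _ _ i => fin_all hsd hres N i) rs R
    hrs.toIsWeaklyRegular (mem_max_of_regular hrs) _ h1 h2
  -- `E_b(k) = 0`
  have hk : Subsingleton (E I (R ⧸ IsLocalRing.maximalIdeal R) b) := by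
    obtain ⟨f, hf⟩ := k_embeds (R := R) (R ⧸ (Ideal.ofList rs • ⊤ : Submodule R R)) (by
      intro x hx hreg
      apply hmax x
      apply RingTheory.Sequence.IsRegular.of_isWeaklyRegular_of_mem_maximalIdeal
      · intro y hy
        rw [List.mem_append, List.mem_singleton] at hy
        rcases hy with hy | rfl
        · exact mem_max_of_regular hrs y hy
        · exact hx
      · rw [RingTheory.Sequence.isWeaklyRegular_append_iff]
        exact ⟨hrs.toIsWeaklyRegular,
          (RingTheory.Sequence.isWeaklyRegular_singleton_iff _ _).2 hreg⟩)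
    have hfg : Function.Exact f (Submodule.mkQ (LinearMap.range f)) := by
      intro y
      simp [LinearMap.mem_range]
    exact E_sub hI midClosed_subsingleton hf (Submodule.mkQ_surjective _) hfg b (b - 1) (by ring)
      (h3.1 b (by linarith)) (E_zero_of _ (hb _ (by linarith)))
  have hall := fun (L : Type u) [AddCommGroup L] [Module R L] [Module.Finite R L] =>
    all_zero hI (hb _ (by linarith)) (fun N _ _ _ i => fin_all hsd hres N i) hk L
  have hqi := cut_quasiIso (hb _ (by linarith)) C hb (hall C)
  have hiso : ∀ n, Nonempty ((homC C (cut I b)).homology n ≃ₗ[R] (homC C I).homology n) := by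
    intro n
    have := hqi n
    exact ⟨(isoOfQuasiIsoAt (cutHom I b C) n).toLinearEquiv⟩
  have hss : ∀ n, Subsingleton ((homC C (cut I b)).homology n) ↔
      Subsingleton ((homC C I).homology n) := by
    intro n
    obtain ⟨e⟩ := hiso n
    exact e.toEquiv.subsingleton_congr
  refine ⟨⟨?_, ?_, ?_, ?_⟩, ?_, ?_⟩
  · refine hres.bounded.subset ?_
    intro i hi hs
    apply hi
    refine ⟨fun x y => Subtype.ext ?_⟩
    exact Subsingleton.elim (α := I.X i) _ _
  · intro i
    rcases lt_trichotomy i (b + 1) with h | h | h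
    · exact cut_injective_le (by omega)
    · subst h
      exact cut_injective_eq hI (hb _ (by linarith)) (fun 𝔞 => hall _)
    · exact cut_injective_gt hI h
  · obtain ⟨i, hi⟩ := hres.not_acyclic
    exact ⟨i, fun hs => hi ((hss i).1 hs)⟩
  · intro i
    obtain ⟨e⟩ := hiso i
    obtain ⟨a, ⟨e'⟩⟩ := hres.homology i
    exact ⟨a, ⟨e.trans e'⟩⟩
  · unfold hinfX
    congr 1
    ext i
    exact not_congr (hss i)
  · intro i hi
    exact cut_le (by omega)

/-- iterate -/
lemma upper [IsLocalRing R] [IsNoetherianRing R] (hsd : IsSemidualizing R C)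
    [Module.Finite R M] {rs : List R}
    (hrs : RingTheory.Sequence.IsRegular R rs)
    (hmax : ∀ x : R, ¬ RingTheory.Sequence.IsRegular R (rs ++ [x])) (n : ℕ) :
    ∀ (I : ChainComplex (ModuleCat.{u} R) ℤ) (b : ℤ), IsQIRes R C M I →
      (∀ i, i < b → Subsingleton (I.X i)) → hinfX (homC C I) ≤ b + rs.length + n →
      ∃ I', IsQIRes R C M I' ∧ hinfX (homC C I') - infX (homC C I') ≤ rs.length := by
  induction n with
  | zero =>
    intro I b hres hb hle
    refine ⟨I, hres, ?_⟩
    have h1 := (inf_spec hsd hres).1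
    have h2 : b ≤ infX (homC C I) := by
      by_contra hcon
      exact h1 (hb _ (by omega))
    push_cast at hle
    omega
  | succ n ih =>
    intro I b hres hb hle
    by_cases hlt : b + rs.length < hinfX (homC C I)
    · obtain ⟨h1, h2, h3⟩ := cut_res hsd hres hrs hmax hb hlt
      refine ih (cut I b) (b + 1) h1 h3 ?_
      rw [h2]
      push_cast at hle
      linarith
    · exact ih I b hres hb (by push_cast at hle; omega)

/-- **Bass' formula for C-quasi-injective dimension.** -/
theorem bass (R : Type u) [CommRing R] [IsLocalRing R] [IsNoetherianRing R]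
    (C : Type u) [AddCommGroup C] [Module R C] (hC : IsSemidualizing R C)
    (M : Type u) [AddCommGroup M] [Module R M] [Module.Finite R M]
    (h : qid R C M < ⊤) : qid R C M = depthR R := by
  -- there is a resolution
  have hex : ∃ I, IsQIRes R C M I := by
    by_contra hcon
    push Not at hcon
    apply h.ne
    unfold qid
    simp only [hcon, iInf_false, iInf_top]
  obtain ⟨I₀, hI₀⟩ := hex
  apply le_antisymm
  · -- a maximal regular sequence
    have hbd : ∀ rs : List R, RingTheory.Sequence.IsRegular R rs →
        rs.length ≤ (hinfX (homC C I₀) - infX (homC C I₀)).toNat := by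
      intro rs hrs
      have := lower hC hI₀ hrs
      omega
    have hmaxex : ∃ rs : List R, RingTheory.Sequence.IsRegular R rs ∧
        ∀ x : R, ¬ RingTheory.Sequence.IsRegular R (rs ++ [x]) := by
      by_contra hcon
      push Not at hcon
      have : ∀ n : ℕ, ∃ rs : List R, RingTheory.Sequence.IsRegular R rs ∧ rs.length = n := by
        intro n
        induction n with
        | zero => exact ⟨[], RingTheory.Sequence.IsRegular.nil R R, rfl⟩
        | succ n ih =>
          obtain ⟨rs, h1, h2⟩ := ih
          obtain ⟨x, hx⟩ := hcon rs h1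
          exact ⟨rs ++ [x], hx, by simp [h2]⟩
      obtain ⟨rs, h1, h2⟩ := this ((hinfX (homC C I₀) - infX (homC C I₀)).toNat + 1)
      have := hbd rs h1
      omega
    obtain ⟨rs, hrs, hmax⟩ := hmaxex
    obtain ⟨I', hI', hle⟩ := upper hC hrs hmax
      (hinfX (homC C I₀) - infX (homC C I₀)).toNat I₀ (infX (homC C I₀)) hI₀
      (inf_spec hC hI₀).2.1 (by
        have := Int.self_le_toNat (hinfX (homC C I₀) - infX (homC C I₀))
        have h0 : (0 : ℤ) ≤ rs.length := by positivity
        linarith)
    calc qid R C M ≤ ((hinfX (homC C I') - infX (homC C I')).toNat : ℕ∞) :=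
          iInf₂_le I' hI'
      _ ≤ (rs.length : ℕ∞) := by
          exact_mod_cast (by omega : (hinfX (homC C I') - infX (homC C I')).toNat ≤ rs.length)
      _ ≤ depthR R := le_iSup₂ (f := fun (rs : List R)
          (_ : RingTheory.Sequence.IsRegular R rs) => (rs.length : ℕ∞)) rs hrs
  · refine iSup₂_le fun rs hrs => le_iInf₂ fun I hI => ?_
    have := lower hC hI hrs
    exact_mod_cast (by omega : rs.length ≤ (hinfX (homC C I) - infX (homC C I)).toNat)

end R688.QI
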