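import Pool.Agent.R688.QI.Semi

open CategoryTheory Abelian Pointwise

universe u

namespace R688.QI

variable {R : Type u} [CommRing R]

section

variable {L L' : Type u} [AddCommGroup L] [Module R L] [AddCommGroup L'] [Module R L']
variable (I : ChainComplex (ModuleCat.{u} R) ℤ)

lemma Emap_sum {ι : Type*} (s : Finset ι) (f : ι → (L →ₗ[R] L')) (i : ℤ) :
    Emap I (∑ j ∈ s, f j) i = ∑ j ∈ s, Emap I (f j) i := by
  classical
  induction s using Finset.induction_on with
  | empty => simp [Emap_zero]
  | insert a s ha ih => rw [Finset.sum_insert ha, Finset.sum_insert ha, Emap_add, ih]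

end

/-- a presentation whose first generator is minimal -/
lemma exists_min_pres [IsLocalRing R] (C : Type u) [AddCommGroup C] [Module R C]
    [Module.Finite R C] [Nontrivial C] :
    ∃ (n : ℕ) (φ : (Fin (n + 1) → R) →ₗ[R] C), Function.Surjective φ ∧
      ∀ x ∈ LinearMap.ker φ, x 0 ∈ IsLocalRing.maximalIdeal R := by
  classical
  have hex : ∃ n : ℕ, ∃ φ : (Fin n → R) →ₗ[R] C, Function.Surjective φ :=
    Module.Finite.exists_fin' R C
  obtain ⟨φ, hφ⟩ := Nat.find_spec hex
  have hmin := fun m (hm : m < Nat.find hex) => Nat.find_min hex hm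
  generalize Nat.find hex = n at φ hφ hmin
  rcases n with _ | n
  · exfalso
    obtain ⟨c, hc⟩ := exists_ne (0 : C)
    obtain ⟨x, rfl⟩ := hφ c
    apply hc
    rw [Subsingleton.elim x 0, map_zero]
  · refine ⟨n, φ, hφ, ?_⟩
    intro x hx
    by_contra hu
    have hunit : IsUnit (x 0) := by
      by_contra h
      exact hu ((IsLocalRing.mem_maximalIdeal _).2 h)
    obtain ⟨u, hu'⟩ := hunit
    apply hmin n (Nat.lt_succ_self n)
    let ι : (Fin n → R) →ₗ[R] (Fin (n + 1) → R) :=
      { toFun := fun y => Fin.cons 0 y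
        map_add' := by
          intro a b
          ext j
          refine Fin.cases ?_ (fun j => ?_) j <;> simp
        map_smul' := by
          intro a b
          ext j
          refine Fin.cases ?_ (fun j => ?_) j <;> simp }
    refine ⟨φ ∘ₗ ι, ?_⟩
    intro c
    obtain ⟨z, rfl⟩ := hφ c
    refine ⟨fun j => (z - (z 0 * (↑u⁻¹ : R)) • x) j.succ, ?_⟩
    have h1 : ι (fun j => (z - (z 0 * (↑u⁻¹ : R)) • x) j.succ)
        = z - (z 0 * (↑u⁻¹ : R)) • x := by
      ext j
      refine Fin.cases ?_ (fun j => ?_) j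
      · simp only [ι, LinearMap.coe_mk, AddHom.coe_mk, Fin.cons_zero, Pi.sub_apply, Pi.smul_apply,
          smul_eq_mul]
        rw [← hu', mul_assoc, Units.inv_mul, mul_one, sub_self]
      · simp [ι]
    rw [LinearMap.comp_apply, h1, map_sub, map_smul, LinearMap.mem_ker.1 hx, smul_zero, sub_zero]

variable {I : ChainComplex (ModuleCat.{u} R) ℤ} (hI : ∀ i, Module.Injective R (I.X i))
variable {C : Type u} [AddCommGroup C] [Module R C]

include hI in
/-- `E_h(R) ≠ 0` for `h = hinf Hom(C, I)`. -/
theorem E_h_ne [IsLocalRing R] [IsNoetherianRing R] (b h : ℤ)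
    (hb : ∀ i, i < b → Subsingleton (I.X i)) (hC : ∀ i, i < h → Subsingleton (E I C i))
    (hfin : Module.Finite R (E I C h)) (hne : ¬ Subsingleton (E I C h))
    (hsd : IsSemidualizing R C) : ¬ Subsingleton (E I R h) := by
  intro hR
  have := hsd.finite
  have hCn : Nontrivial C := by
    by_contra hcon
    rw [not_nontrivial_iff_subsingleton] at hcon
    exact hne (E_zero_of_subsingleton C h)
  obtain ⟨n, φ, hφ, hmin⟩ := exists_min_pres (R := R) C
  obtain ⟨p, ψ, hψ⟩ := Module.Finite.exists_fin' R (LinearMap.ker φ)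
  have hV : V (R := R) C C := hsd.ext_vanish
  have hVK : V (R := R) (LinearMap.ker φ) C := V_syz hφ hV
  have hVK2 : V (R := R) (LinearMap.ker ψ) C := V_syz hψ hVK
  -- first surjectivity
  have s1 : Function.Surjective (Emap I (LinearMap.lcomp R C (LinearMap.ker φ).subtype) h) := by
    have hex := exact_mid hI (dual_inj (C := C) hφ) (dual_surj hφ hV) (dual_exact hφ) h
    have hsub : Subsingleton (E I (C →ₗ[R] C) h) := by
      let e : R ≃ₗ[R] (C →ₗ[R] C) := LinearEquiv.ofBijective _ hsd.homothety
      exact midClosed_subsingleton.equiv (Eequiv I e h).symm hR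
    intro x
    exact (hex x).1 (Subsingleton.elim _ _)
  have s2 : Function.Surjective (Emap I (LinearMap.lcomp R C ψ) h) := by
    obtain ⟨δ, h1, h2⟩ := exact_conn hI (dual_inj (C := C) hψ) (dual_surj hψ hVK)
      (dual_exact hψ) h (h - 1) (by ring)
    have hsub : Subsingleton (E I (LinearMap.ker ψ →ₗ[R] C) (h - 1)) :=
      transfer hI midClosed_subsingleton b h hb hC (h - b).toNat (h - 1) (by omega) (by omega)
        _ hVK2
    intro x
    exact (h1 x).1 (Subsingleton.elim _ _)
  -- the split part
  let j : C →ₗ[R] ((Fin (n + 1) → R) →ₗ[R] C) :=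
    LinearMap.flip
      { toFun := fun x => x 0 • (LinearMap.id : C →ₗ[R] C)
        map_add' := by intro x y; simp [add_smul]
        map_smul' := by intro r x; simp [mul_smul] }
  let r : ((Fin (n + 1) → R) →ₗ[R] C) →ₗ[R] C := LinearMap.applyₗ (Pi.single 0 1)
  have hrj : r ∘ₗ j = LinearMap.id := by
    ext c
    simp [r, j]
  have s3 : Function.Surjective (Emap I j h) := by
    have h1 : Emap I j h ∘ₗ Emap I r h = LinearMap.id := by
      rw [← Emap_comp, hrj, Emap_id]
    intro x
    exact ⟨Emap I r h x, LinearMap.congr_fun h1 x⟩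
  -- the composite
  let t : Fin p → (C →ₗ[R] ((Fin p → R) →ₗ[R] C)) := fun k =>
    LinearMap.flip
      { toFun := fun x => x k • (LinearMap.id : C →ₗ[R] C)
        map_add' := by intro x y; simp [add_smul]
        map_smul' := by intro r x; simp [mul_smul] }
  have hcomp : LinearMap.lcomp R C ψ ∘ₗ LinearMap.lcomp R C (LinearMap.ker φ).subtype ∘ₗ j
      = ∑ k, ((ψ (Pi.single k 1) : Fin (n + 1) → R) 0) • t k := by
    refine LinearMap.ext fun c => ?_
    refine LinearMap.pi_ext fun k a => ?_
    have hsum : ψ (Pi.single k a) = a • ψ (Pi.single k 1) := by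
      rw [← map_smul, ← Pi.single_smul, smul_eq_mul, mul_one]
    simp only [LinearMap.comp_apply, LinearMap.lcomp_apply, LinearMap.sum_apply,
      LinearMap.smul_apply, hsum]
    simp only [j, t, LinearMap.flip_apply, LinearMap.coe_mk, AddHom.coe_mk, LinearMap.smul_apply,
      LinearMap.id_apply, map_smul, Submodule.subtype_apply]
    rw [Finset.sum_eq_single k]
    · simp only [Pi.single_eq_same]
      rw [smul_smul, smul_smul, mul_comm]
    · intro b _ hb
      rw [Pi.single_eq_of_ne hb]
      simp
    · simp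
  have hE := congrArg (fun f => Emap I f h) hcomp
  simp only [Emap_comp, Emap_sum, Emap_smul] at hE
  -- Nakayama
  have htop : (⊤ : Submodule R (E I C h)) ≤ IsLocalRing.maximalIdeal R • ⊤ := by
    intro x _
    obtain ⟨y, rfl⟩ := s3 x
    obtain ⟨z, rfl⟩ := s1 y
    obtain ⟨w, rfl⟩ := s2 z
    have := LinearMap.congr_fun hE w
    simp only [LinearMap.comp_apply, LinearMap.sum_apply, LinearMap.smul_apply] at this
    rw [this]
    refine Submodule.sum_mem _ fun k _ => ?_
    exact Submodule.smul_mem_smul (hmin _ (ψ (Pi.single k 1)).2) trivial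
  have hbot : (⊤ : Submodule R (E I C h)) = ⊥ :=
    Submodule.eq_bot_of_le_smul_of_le_jacobson_bot (IsLocalRing.maximalIdeal R) ⊤
      Module.Finite.fg_top htop (IsLocalRing.maximalIdeal_le_jacobson _)
  apply hne
  refine ⟨fun x y => ?_⟩
  have hx : x ∈ (⊤ : Submodule R (E I C h)) := trivial
  have hy : y ∈ (⊤ : Submodule R (E I C h)) := trivial
  rw [hbot, Submodule.mem_bot] at hx hy
  rw [hx, hy]

/-- Nakayama: if multiplication by `x ∈ 𝔪` is surjective on a finite module, it is zero. -/
lemma subsingleton_of_smul_surj [IsLocalRing R] (N : Type u) [AddCommGroup N] [Module R N]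
    [Module.Finite R N] {x : R} (hx : x ∈ IsLocalRing.maximalIdeal R)
    (h : ∀ y : N, ∃ z : N, x • z = y) : Subsingleton N := by
  have htop : (⊤ : Submodule R N) ≤ IsLocalRing.maximalIdeal R • ⊤ := by
    intro y _
    obtain ⟨z, rfl⟩ := h y
    exact Submodule.smul_mem_smul hx trivial
  have hbot : (⊤ : Submodule R N) = ⊥ :=
    Submodule.eq_bot_of_le_smul_of_le_jacobson_bot (IsLocalRing.maximalIdeal R) ⊤
      Module.Finite.fg_top htop (IsLocalRing.maximalIdeal_le_jacobson _)
  exact (Submodule.subsingleton_iff R).1 (subsingleton_of_bot_eq_top hbot.symm)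

include hI in
/-- one step of a regular sequence -/
theorem reg_step [IsLocalRing R] (N : Type u) [AddCommGroup N] [Module R N] {x : R}
    (hx : x ∈ IsLocalRing.maximalIdeal R) (hreg : IsSMulRegular N x) (h : ℤ)
    (hfin : Module.Finite R (E I N h)) (h0 : ∀ i, i < h → Subsingleton (E I N i))
    (hne : ¬ Subsingleton (E I N h)) :
    (∀ i, i < h - 1 → Subsingleton (E I (QuotSMulTop x N) i)) ∧
      ¬ Subsingleton (E I (QuotSMulTop x N) (h - 1)) := by
  let f : N →ₗ[R] N := LinearMap.lsmul R N x
  let g : N →ₗ[R] QuotSMulTop x N := Submodule.mkQ _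
  have hf : Function.Injective f := hreg
  have hg : Function.Surjective g := Submodule.mkQ_surjective _
  have hfg : Function.Exact f g := by
    intro y
    constructor
    · intro hy
      have : y ∈ x • (⊤ : Submodule R N) := by
        simpa [g] using hy
      obtain ⟨z, _, hz⟩ := (Submodule.mem_smul_pointwise_iff_exists y x ⊤).1 this
      exact ⟨z, hz⟩
    · rintro ⟨z, rfl⟩
      have : x • z ∈ x • (⊤ : Submodule R N) := Submodule.smul_mem_pointwise_smul z x ⊤ trivial
      exact (Submodule.Quotient.mk_eq_zero (x • (⊤ : Submodule R N))).2 this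
  constructor
  · intro i hi
    exact E_quot hI midClosed_subsingleton hf hg hfg (i + 1) i rfl (h0 _ (by linarith))
      (h0 _ (by linarith))
  · intro hs
    obtain ⟨δ, h1, h2⟩ := exact_conn hI hf hg hfg h (h - 1) (by ring)
    apply hne
    have hsm : ∀ y : E I N h, ∃ z : E I N h, x • z = y := by
      intro y
      obtain ⟨z, hz⟩ := (h1 y).1 (Subsingleton.elim _ _)
      refine ⟨z, ?_⟩
      rw [← hz]
      have hfe : f = x • LinearMap.id := by
        ext y
        simp [f]
      rw [hfe, Emap_smul, Emap_id]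
      rfl
    exact subsingleton_of_smul_surj _ hx hsm

include hI in
/-- regular sequences -/
theorem reg_seq [IsLocalRing R] [IsNoetherianRing R]
    (hfin : ∀ (N : Type u) [AddCommGroup N] [Module R N] [Module.Finite R N] (i : ℤ),
      Module.Finite R (E I N i)) (rs : List R) :
    ∀ (N : Type u) [AddCommGroup N] [Module R N] [Module.Finite R N],
    RingTheory.Sequence.IsWeaklyRegular N rs → (∀ x ∈ rs, x ∈ IsLocalRing.maximalIdeal R) →
    ∀ (h : ℤ), (∀ i, i < h → Subsingleton (E I N i)) → ¬ Subsingleton (E I N h) →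
    (∀ i, i < h - rs.length →
      Subsingleton (E I (N ⧸ (Ideal.ofList rs • ⊤ : Submodule R N)) i)) ∧
      ¬ Subsingleton (E I (N ⧸ (Ideal.ofList rs • ⊤ : Submodule R N)) (h - rs.length)) := by
  induction rs with
  | nil =>
    intro N _ _ _ _ _ h h0 hne
    let e : (N ⧸ (Ideal.ofList ([] : List R) • ⊤ : Submodule R N)) ≃ₗ[R] N :=
      Submodule.quotEquivOfEqBot _ (by rw [Ideal.ofList_nil, Submodule.bot_smul])
    simp only [List.length_nil, Nat.cast_zero, sub_zero]
    exact ⟨fun i hi => midClosed_subsingleton.equiv (Eequiv I e i) (h0 i hi),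
      fun hs => hne (midClosed_subsingleton.equiv (Eequiv I e h).symm hs)⟩
  | cons x rs ih =>
    intro N _ _ _ hreg hmem h h0 hne
    rw [RingTheory.Sequence.isWeaklyRegular_cons_iff] at hreg
    obtain ⟨hx, hrs⟩ := hreg
    have h1 := reg_step hI N (hmem x (by simp)) hx h (hfin N h) h0 hne
    have h2 := ih (QuotSMulTop x N) hrs (fun y hy => hmem y (by simp [hy])) (h - 1) h1.1 h1.2
    let e := Submodule.quotOfListConsSMulTopEquivQuotSMulTopInner N x rs
    have hl : h - 1 - (rs.length : ℤ) = h - ((x :: rs).length : ℤ) := by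
      rw [List.length_cons]; push_cast; ring
    rw [hl] at h2
    exact ⟨fun i hi => midClosed_subsingleton.equiv (Eequiv I e i) (h2.1 i hi),
      fun hs => h2.2 (midClosed_subsingleton.equiv (Eequiv I e _).symm hs)⟩

end R688.QI
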