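import Pool.Agent.R688.QI.Trans

open CategoryTheory Abelian

universe u

namespace R688.QI

variable {R : Type u} [CommRing R]

/-- `Ext^n(K, C) = 0` for all `n > 0` -/
def V (K C : Type u) [AddCommGroup K] [Module R K] [AddCommGroup C] [Module R C] : Prop :=
  ∀ n : ℕ, 0 < n → Subsingleton (Ext (ModuleCat.of R K) (ModuleCat.of R C) n)

variable {K C : Type u} [AddCommGroup K] [Module R K] [AddCommGroup C] [Module R C]

lemma free_ext {n : ℕ} (m : ℕ) (hm : 0 < m) :
    Subsingleton (Ext (ModuleCat.of R (Fin n → R)) (ModuleCat.of R C) m) := by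
  have : Projective (ModuleCat.of R (Fin n → R)) := by
    rw [← IsProjective.iff_projective]
    infer_instance
  obtain ⟨k, rfl⟩ : ∃ k, m = k + 1 := ⟨m - 1, by omega⟩
  exact Ext.subsingleton_of_projective _ _ _

/-- the short exact sequence of a presentation -/
lemma pres_shortExact {n : ℕ} {φ : (Fin n → R) →ₗ[R] K} (hφ : Function.Surjective φ) :
    (ShortComplex.mk (ModuleCat.ofHom (LinearMap.ker φ).subtype) (ModuleCat.ofHom φ)
      (by ext x; simp)).ShortExact := by
  refine ModuleCat.shortComplex_shortExact _ ?_ ?_ ?_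
  · intro x
    simp
  · exact Subtype.val_injective
  · exact hφ

lemma V_syz {n : ℕ} {φ : (Fin n → R) →ₗ[R] K} (hφ : Function.Surjective φ) (hV : V (R := R) K C) :
    V (R := R) (LinearMap.ker φ) C := by
  intro m hm
  refine subsingleton_of_forall_eq 0 fun x => ?_
  have hS := pres_shortExact hφ
  have h1 : hS.extClass.comp x (add_comm 1 m) = 0 := by
    have := hV (m + 1) (by omega)
    exact Subsingleton.elim _ _
  obtain ⟨y, hy⟩ := Ext.contravariant_sequence_exact₁ hS (ModuleCat.of R C) x (add_comm 1 m) h1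
  have := free_ext (R := R) (C := C) (n := n) m hm
  have hy0 : y = 0 := Subsingleton.elim _ _
  rw [← hy, hy0, Ext.comp_zero]

lemma ext_syz {n : ℕ} {φ : (Fin n → R) →ₗ[R] K} (hφ : Function.Surjective φ)
    (hV : V (R := R) K C) (f : LinearMap.ker φ →ₗ[R] C) :
    ∃ g : (Fin n → R) →ₗ[R] C, g ∘ₗ (LinearMap.ker φ).subtype = f := by
  have hS := pres_shortExact hφ
  have h1 : hS.extClass.comp (Ext.mk₀ (ModuleCat.ofHom f)) (add_zero 1) = 0 := by
    have := hV 1 (by omega)
    exact Subsingleton.elim _ _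
  obtain ⟨y, hy⟩ := Ext.contravariant_sequence_exact₁ hS (ModuleCat.of R C)
    (Ext.mk₀ (ModuleCat.ofHom f)) (add_zero 1) h1
  obtain ⟨g, rfl⟩ := (Ext.mk₀_bijective _ _).2 y
  rw [Ext.mk₀_comp_mk₀] at hy
  have := (Ext.mk₀_bijective _ _).1 hy
  refine ⟨g.hom, ?_⟩
  have h2 := congrArg ModuleCat.Hom.hom this
  exact h2

/-- The dual of a presentation: `0 → Hom(K, C) → Hom(F, C) → Hom(K', C) → 0` -/
lemma dual_inj {n : ℕ} {φ : (Fin n → R) →ₗ[R] K} (hφ : Function.Surjective φ) :
    Function.Injective (LinearMap.lcomp R C φ) := by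
  intro x y hxy
  refine LinearMap.ext fun z => ?_
  obtain ⟨w, rfl⟩ := hφ z
  exact LinearMap.congr_fun hxy w

lemma dual_surj {n : ℕ} {φ : (Fin n → R) →ₗ[R] K} (hφ : Function.Surjective φ)
    (hV : V (R := R) K C) :
    Function.Surjective (LinearMap.lcomp R C (LinearMap.ker φ).subtype) := fun f =>
  ext_syz hφ hV f

lemma dual_exact {n : ℕ} {φ : (Fin n → R) →ₗ[R] K} (hφ : Function.Surjective φ) :
    Function.Exact (LinearMap.lcomp R C φ) (LinearMap.lcomp R C (LinearMap.ker φ).subtype) := by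
  intro x
  constructor
  · intro hx
    have hx' : (x : (Fin n → R) →ₗ[R] C) ∘ₗ (LinearMap.ker φ).subtype = 0 := hx
    have hker : LinearMap.ker φ ≤ LinearMap.ker x := by
      intro y hy
      exact LinearMap.congr_fun hx' ⟨y, hy⟩
    let e := φ.quotKerEquivOfSurjective hφ
    refine ⟨((LinearMap.ker φ).liftQ x hker) ∘ₗ (e.symm : K →ₗ[R] _), ?_⟩
    refine LinearMap.ext fun y => ?_
    have : e.symm (φ y) = Submodule.Quotient.mk y := by
      rw [LinearEquiv.symm_apply_eq]
      rfl
    simp [this]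
  · rintro ⟨y, rfl⟩
    refine LinearMap.ext fun z => ?_
    simp

variable {I : ChainComplex (ModuleCat.{u} R) ℤ} (hI : ∀ i, Module.Injective R (I.X i))

/-- `Hom(R^n, C) = C^n` -/
noncomputable def dualFree (n : ℕ) (C : Type u) [AddCommGroup C] [Module R C] :
    ((Fin n → R) →ₗ[R] C) ≃ₗ[R] (Fin n → C) :=
  (Module.piEquiv (Fin n) R C).symm

include hI in
/-- the basic transfer: from `E_i(C)` to `E_i(Hom(K, C))` -/
theorem transfer [IsNoetherianRing R] {P : ModuleCat.{u} R → Prop} (hP : MidClosed P) (b h : ℤ)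
    (hb : ∀ i, i < b → Subsingleton (I.X i)) (hC : ∀ i, i < h → P (E I C i)) (m : ℕ) :
    ∀ (i : ℤ), i < b + m → i < h → ∀ (K : Type u) [AddCommGroup K] [Module R K]
      [Module.Finite R K], V (R := R) K C → P (E I (K →ₗ[R] C) i) := by
  induction m with
  | zero =>
    intro i hi _ K _ _ _ _
    exact hP.zero _ (E_zero_of _ (hb i (by simpa using hi)))
  | succ m ih =>
    intro i hi hih K _ _ _ hV
    obtain ⟨n, φ, hφ⟩ := Module.Finite.exists_fin' R K
    refine E_sub hI hP (dual_inj (C := C) hφ) (dual_surj hφ hV) (dual_exact hφ) i (i - 1)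
      (by ring) ?_ (ih (i - 1) (by push_cast at hi; linarith) (by linarith) _ (V_syz hφ hV))
    exact hP.equiv (Eequiv I (dualFree n C) i) (E_pow hI hP C i (hC i hih) n)

include hI in
theorem transferR [IsNoetherianRing R] {P : ModuleCat.{u} R → Prop} (hP : MidClosed P) (b h : ℤ)
    (hb : ∀ i, i < b → Subsingleton (I.X i)) (hC : ∀ i, i < h → P (E I C i))
    (hsd : IsSemidualizing R C) (i : ℤ) (hi : i < h) : P (E I R i) := by
  have := hsd.finite
  have h1 := transfer hI hP b h hb hC (i + 1 - b).toNat i (by omega) hi C hsd.ext_vanish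
  let e : R ≃ₗ[R] (C →ₗ[R] C) := LinearEquiv.ofBijective _ hsd.homothety
  exact hP.equiv (Eequiv I e i) h1

end R688.QI
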