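import Pool.Agent.R688.QI.Les

open CategoryTheory

universe u

namespace R688.QI

variable {R : Type u} [CommRing R]

/-- a property of modules which holds for zero modules and passes to the middle term of an exact
sequence -/
structure MidClosed (P : ModuleCat.{u} R → Prop) : Prop where
  zero : ∀ A : ModuleCat.{u} R, Subsingleton A → P A
  mid : ∀ (A B C : ModuleCat.{u} R) (f : A →ₗ[R] B) (g : B →ₗ[R] C), Function.Exact f g →
    P A → P C → P B

lemma midClosed_subsingleton : MidClosed (R := R) (fun A => Subsingleton A) where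
  zero _ h := h
  mid A B C f g hfg hA hC := by
    refine ⟨fun x y => ?_⟩
    have hz : ∀ z : B, z = 0 := by
      intro z
      obtain ⟨w, rfl⟩ := (hfg z).1 (Subsingleton.elim _ _)
      rw [Subsingleton.elim w 0, map_zero]
    rw [hz x, hz y]

lemma midClosed_finite [IsNoetherianRing R] : MidClosed (R := R) (fun A => Module.Finite R A) where
  zero A h := by
    have := h
    infer_instance
  mid A B C f g hfg hA hC := by
    have := hA
    have := hC
    have h := isNoetherian_of_range_eq_ker f g hfg.linearMap_ker_eq.symm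
    infer_instance

lemma MidClosed.equiv {P : ModuleCat.{u} R → Prop} (hP : MidClosed P) {A B : ModuleCat.{u} R}
    (e : A ≃ₗ[R] B) (hA : P A) : P B := by
  refine hP.mid A B (ModuleCat.of R PUnit) e.toLinearMap 0 ?_ hA (hP.zero _ inferInstance)
  intro y
  simp only [LinearMap.zero_apply, true_iff]
  exact ⟨e.symm y, by simp⟩

variable {I : ChainComplex (ModuleCat.{u} R) ℤ} (hI : ∀ i, Module.Injective R (I.X i))

/-- if `I_i = 0` then `E_i(L) = 0` -/
lemma E_zero_of (L : Type u) [AddCommGroup L] [Module R L] {i : ℤ} (h : Subsingleton (I.X i)) :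
    Subsingleton (E I L i) := by
  have h0 : Limits.IsZero ((homC L I).X i) := by
    apply (ModuleCat.isZero_iff_subsingleton).2
    change Subsingleton (L →ₗ[R] I.X i)
    infer_instance
  have : Limits.IsZero ((homC L I).homology i) :=
    (HomologicalComplex.exactAt_iff_isZero_homology _ _).1 (ShortComplex.exact_of_isZero_X₂ _ h0)
  exact (ModuleCat.isZero_iff_subsingleton).1 this

lemma E_zero_of_subsingleton (L : Type u) [AddCommGroup L] [Module R L] [Subsingleton L] (i : ℤ) :
    Subsingleton (E I L i) := by
  have h0 : Limits.IsZero ((homC L I).X i) := by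
    apply (ModuleCat.isZero_iff_subsingleton).2
    change Subsingleton (L →ₗ[R] I.X i)
    infer_instance
  have : Limits.IsZero ((homC L I).homology i) :=
    (HomologicalComplex.exactAt_iff_isZero_homology _ _).1 (ShortComplex.exact_of_isZero_X₂ _ h0)
  exact (ModuleCat.isZero_iff_subsingleton).1 this

include hI in
lemma E_ext {P : ModuleCat.{u} R → Prop} (hP : MidClosed P)
    {L L' L'' : Type u} [AddCommGroup L] [Module R L] [AddCommGroup L'] [Module R L']
    [AddCommGroup L''] [Module R L''] {f : L' →ₗ[R] L} {g : L →ₗ[R] L''}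
    (hf : Function.Injective f) (hg : Function.Surjective g) (hfg : Function.Exact f g) (i : ℤ)
    (h' : P (E I L' i)) (h'' : P (E I L'' i)) : P (E I L i) :=
  hP.mid _ _ _ _ _ (exact_mid hI hf hg hfg i) h'' h'

include hI in
/-- `E_i(L')` from `E_i(L)` and `E_{i-1}(L'')` -/
lemma E_sub {P : ModuleCat.{u} R → Prop} (hP : MidClosed P)
    {L L' L'' : Type u} [AddCommGroup L] [Module R L] [AddCommGroup L'] [Module R L']
    [AddCommGroup L''] [Module R L''] {f : L' →ₗ[R] L} {g : L →ₗ[R] L''}
    (hf : Function.Injective f) (hg : Function.Surjective g) (hfg : Function.Exact f g) (i j : ℤ)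
    (hij : j + 1 = i) (h' : P (E I L i)) (h'' : P (E I L'' j)) : P (E I L' i) := by
  obtain ⟨δ, h1, h2⟩ := exact_conn hI hf hg hfg i j hij
  exact hP.mid _ _ _ _ _ h1 h' h''

include hI in
/-- `E_j(L'')` from `E_j(L)` and `E_{j+1}(L')` -/
lemma E_quot {P : ModuleCat.{u} R → Prop} (hP : MidClosed P)
    {L L' L'' : Type u} [AddCommGroup L] [Module R L] [AddCommGroup L'] [Module R L']
    [AddCommGroup L''] [Module R L''] {f : L' →ₗ[R] L} {g : L →ₗ[R] L''}
    (hf : Function.Injective f) (hg : Function.Surjective g) (hfg : Function.Exact f g) (i j : ℤ)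
    (hij : j + 1 = i) (h' : P (E I L' i)) (h'' : P (E I L j)) : P (E I L'' j) := by
  obtain ⟨δ, h1, h2⟩ := exact_conn hI hf hg hfg i j hij
  exact hP.mid _ _ _ _ _ h2 h' h''

include hI in
/-- powers -/
lemma E_pow {P : ModuleCat.{u} R → Prop} (hP : MidClosed P)
    (C : Type u) [AddCommGroup C] [Module R C] (i : ℤ) (h : P (E I C i)) (n : ℕ) :
    P (E I (Fin n → C) i) := by
  induction n with
  | zero => exact hP.zero _ (E_zero_of_subsingleton _ i)
  | succ n ih =>
    let f : C →ₗ[R] (Fin (n + 1) → C) := LinearMap.single R (fun _ => C) 0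
    let g : (Fin (n + 1) → C) →ₗ[R] (Fin n → C) := LinearMap.funLeft R C Fin.succ
    refine E_ext hI hP (f := f) (g := g) ?_ ?_ ?_ i h ih
    · intro x y hxy
      have := congrFun hxy 0
      simpa [f] using this
    · intro x
      exact ⟨Fin.cons 0 x, by ext j; simp [g, LinearMap.funLeft_apply]⟩
    · intro x
      constructor
      · intro hx
        refine ⟨x 0, ?_⟩
        ext j
        refine Fin.cases ?_ (fun j => ?_) j
        · simp [f]
        · have := congrFun hx j
          simp only [g, LinearMap.funLeft_apply, Pi.zero_apply] at this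
          simp [f, this]
      · rintro ⟨y, rfl⟩
        ext j
        simp [f, g, LinearMap.funLeft_apply]

include hI in
/-- `E_i(L)` for all finitely generated `L` from `E_i(R)`, for a property which holds for `R` in
all degrees. -/
lemma E_all [IsNoetherianRing R] {P : ModuleCat.{u} R → Prop} (hP : MidClosed P) (t : ℤ)
    (ht : ∀ i, t ≤ i → Subsingleton (I.X i)) (h : ∀ i, P (E I R i)) (m : ℕ) :
    ∀ (i : ℤ), t ≤ i + m → ∀ (L : Type u) [AddCommGroup L] [Module R L] [Module.Finite R L],
      P (E I L i) := by
  induction m with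
  | zero =>
    intro i hi L _ _ _
    exact hP.zero _ (E_zero_of L (ht i (by simpa using hi)))
  | succ m ih =>
    intro i hi L _ _ _
    obtain ⟨n, φ, hφ⟩ := Module.Finite.exists_fin' R L
    refine E_quot hI hP (f := (LinearMap.ker φ).subtype) (g := φ) (Subtype.val_injective) hφ
      ?_ (i + 1) i rfl (ih (i + 1) (by push_cast at hi; linarith) _) (E_pow hI hP R i (h i) n)
    intro x
    simp

end R688.QI
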